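import Mathlib
import Pool.Agent.Q237.LT.Tot

/-!
# An absolute bound for the torsion of almost all elliptic curves, and of their products of any
# dimension, over all extensions of small root discriminant

The problem asks for a bound, depending on `K` and `g`, for the order of the torsion points over `K`
of the abelian varieties of dimension `g`. The known bounds for elliptic curves and all the bounds for
abelian varieties over an extension `L` of `K` depend on the degree of `L`.

Let `0 < θ ≤ 1`, `κ ≥ 0`. We show that for almost all invariants `j ∈ K` the following holds. Let `L` be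
any finite extension of `K`, of any degree, whose root discriminant is at most `δ_K H(j) ^ κ`, for
instance, for `κ = 0`, any unramified extension. Then the torsion points over `L` of ALL elliptic curves
over `L` of invariant `j` have order at most `28 / θ ^ 2`, an absolute constant, and the order of a
torsion point of a product of such curves, of any dimension and with different invariants, divides the
least common multiple of the numbers up to `28 / θ ^ 2`, whatever the dimension and the field are.
The exceptions of absolute height at most `B` are at most `(C B ^ (1/3 + 4/3 (θ + κ) + ε)) ^ [K : ℚ]`,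
with a constant `C` which does not depend on `K`; the number of all `j ∈ K` of height at most `B` is at
least `(B ^ (2 - ε) / (C δ_K ^ (2 + ε))) ^ [K : ℚ]`.

Proof (library `Q237/LT`): if the places which are poles of `j` or where all curves of invariant `j`
have additive reduction are not too few (their norms contribute `θ h(j)`), one compares the local
heights of the multiples of a point at these places, by an energy argument of the kind of Hindry and
Silverman and of Petsche which is uniform in the degree, and the number of the invariants with few such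
places is bounded, uniformly in the field.
-/

set_option autoImplicit false
set_option linter.unusedSectionVars false

namespace Pool.Agent.Results.MP_160b6c_nt.SmallRootDiscriminant

open NumberField

section Defs

/-- The curve `y² = x³ + a x + b` over the field `L`. -/
def curve {L : Type} [Field L] (a b : L) : WeierstrassCurve L := ⟨0, 0, 0, a, b⟩

/-- The set `E(L)` of its points over `L`. -/
abbrev Points {L : Type} [Field L] (a b : L) : Type := (curve a b).toAffine.Point

/-- Its `j`-invariant. -/
def jInvariant {L : Type} [Field L] (a b : L) : L := 6912 * a ^ 3 / (4 * a ^ 3 + 27 * b ^ 2)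

/-- The root discriminant of the number field `K`. -/
noncomputable def rootDisc (K : Type) [Field K] [NumberField K] : ℝ :=
  |(NumberField.discr K : ℝ)| ^ (1 / (Module.finrank ℚ K : ℝ))

/-- The absolute multiplicative height. -/
noncomputable def absHeight {K : Type} [Field K] [NumberField K] (j : K) : ℝ :=
  Height.mulHeight₁ j ^ (1 / (Module.finrank ℚ K : ℝ))

open scoped Classical in
/-- The torsion points of all elliptic curves of invariant `j` over all finite extensions `L` of `K` of
root discriminant at most `δ_K H(j) ^ κ` have order at most `N`. -/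
def BoundedTorsion (κ N : ℝ) {K : Type} [Field K] [NumberField K] (j : K) : Prop :=
  ∀ (L : Type) [Field L] [NumberField L] [Algebra K L],
    rootDisc L ≤ rootDisc K * absHeight j ^ κ →
    ∀ a b : L, 4 * a ^ 3 + 27 * b ^ 2 ≠ 0 → jInvariant a b = algebraMap K L j →
    ∀ P : Points a b, IsOfFinAddOrder P → (addOrderOf P : ℝ) ≤ N

end Defs

section Aux

variable {K : Type} [Field K] [NumberField K]

open Pool.Agent.Q237.LS (rDisc InvS n_pos)

theorem log_eq (j : K) : Height.logHeight₁ j = Real.log (Height.mulHeight₁ j) := rfl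

theorem absHeight_eq (j : K) :
    absHeight j = Real.exp (Height.logHeight₁ j / Module.finrank ℚ K) := by
  unfold absHeight
  rw [Real.rpow_def_of_pos (Height.mulHeight₁_pos j), ← log_eq]
  congr 1
  ring

theorem absHeight_pow (j : K) (κ : ℝ) :
    absHeight j ^ κ = Real.exp (κ * (Height.logHeight₁ j / Module.finrank ℚ K)) := by
  rw [absHeight_eq, ← Real.exp_mul, mul_comm]

theorem absHeight_le {B : ℝ} (hB : 1 ≤ B) (j : K) :
    absHeight j ≤ B ↔ Height.logHeight₁ j ≤ Module.finrank ℚ K * Real.log B := by
  have hB0 : 0 < B := by linarith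
  have hn := n_pos (K := K)
  rw [absHeight_eq, ← Real.le_log_iff_exp_le hB0, div_le_iff₀ hn, mul_comm]

open scoped Classical in
theorem good_of {κ c N : ℝ} {j : K} (h : Pool.Agent.Q237.LS.UT κ c N j) :
    BoundedTorsion κ N j := by
  intro L _ _ _ hL a b hD hj P hP
  have h1 : Real.log |(discr L : ℝ)| ≤
      Module.finrank K L * (Real.log |(discr K : ℝ)| + κ * Pool.Agent.W223.AK.ht j) := by
    apply Pool.Agent.Q237.LS.rDisc_le
    rw [absHeight_pow] at hL
    exact hL
  exact (h L h1 a b hD hj).1 P hP

theorem pow_two_le {x y : ℝ} (hx : 0 ≤ x) (hy : 2 ≤ y) {n : ℕ} (hn : n ≠ 0) :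
    x ^ n + 2 ≤ (x + y) ^ n := by
  have h1 : x ^ n + y ^ n ≤ (x + y) ^ n := pow_add_pow_le hx (by linarith) hn
  have h2 : y ≤ y ^ n := le_self_pow₀ (by linarith) hn
  linarith

end Aux

open scoped Classical in
/-- **Theorem.** (1) The number of the invariants of height at most `B` for which the bound
`28 / θ ^ 2` fails is at most `(C B ^ (1/3 + 4/3 (θ + κ) + ε)) ^ [K : ℚ]`, with `C` independent of `K`.
(2) The number of all `j ∈ K` of height at most `B` is at least
`(B ^ (2 - ε) / (C δ_K ^ (2 + ε))) ^ [K : ℚ]` for `B ≥ 16 √δ_K`. (3) For products of curves over `L`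
whose invariants are not exceptional, of any dimension, the orders of the components of a torsion
point are at most `28 / θ ^ 2`, and its order divides the least common multiple of the numbers up to
`28 / θ ^ 2`. -/
theorem result (θ κ ε : ℝ) (hθ : 0 < θ) (hθ1 : θ ≤ 1) (hκ : 0 ≤ κ) (hε : 0 < ε) :
    (∃ C : ℝ, 0 < C ∧ ∀ (K : Type) [Field K] [NumberField K],
      (∀ B : ℝ, 1 ≤ B → ({j : K | absHeight j ≤ B} : Set K).Finite ∧
        (({j : K | absHeight j ≤ B ∧ ¬ BoundedTorsion κ (28 / θ ^ 2) j} : Set K).ncard : ℝ) ≤
          (C * B ^ (1 / 3 + 4 / 3 * (θ + κ) + ε)) ^ Module.finrank ℚ K) ∧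
      ∀ B : ℝ, 16 * √(rootDisc K) ≤ B →
        (B ^ (2 - ε) / (C * rootDisc K ^ (2 + ε))) ^ Module.finrank ℚ K ≤
          (({j : K | absHeight j ≤ B} : Set K).ncard : ℝ)) ∧
    ∀ (K : Type) [Field K] [NumberField K] (L : Type) [Field L] [NumberField L] [Algebra K L]
      (g : ℕ) (j : Fin g → K) (a b : Fin g → L),
      (∀ i, BoundedTorsion κ (28 / θ ^ 2) (j i) ∧
        rootDisc L ≤ rootDisc K * absHeight (j i) ^ κ ∧ 4 * a i ^ 3 + 27 * b i ^ 2 ≠ 0 ∧
        jInvariant (a i) (b i) = algebraMap K L (j i)) →
      ∀ P : ∀ i, Points (a i) (b i), IsOfFinAddOrder P →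
        (∀ i, (addOrderOf (P i) : ℝ) ≤ 28 / θ ^ 2) ∧
        addOrderOf P ∣ (Finset.Icc 1 ⌊28 / θ ^ 2⌋₊).lcm id := by
  refine ⟨?_, ?_⟩
  · obtain ⟨A1, hA1, h1⟩ := Pool.Agent.Q237.LT.log_countU hθ hθ1 hκ hε
      (fun K _ _ j => BoundedTorsion κ (28 / θ ^ 2) j) (fun K _ _ j h => good_of h)
    obtain ⟨A2, hA2, h2⟩ := Pool.Agent.Q237.LS.inv_log hε
    refine ⟨Real.exp A1 + 2 + Real.exp A2, by positivity, ?_⟩
    intro K _ _
    have hn := Pool.Agent.Q237.LS.n_pos (K := K)
    have hn0 : Module.finrank ℚ K ≠ 0 := Module.finrank_pos.ne'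
    have hfin : ∀ B : ℝ, 1 ≤ B → ({j : K | absHeight j ≤ B} : Set K).Finite := by
      intro B hB
      refine (NumberField.finite_setOfPred_logHeight₁_le (K := K)
        (Module.finrank ℚ K * Real.log B)).subset ?_
      intro j hj
      exact (absHeight_le hB j).1 hj
    refine ⟨fun B hB => ⟨hfin B hB, ?_⟩, fun B hB => ?_⟩
    · set β := 1 / 3 + 4 / 3 * (θ + κ) + ε with hβ
      have hβ0 : 0 ≤ β := by positivity
      have hB0 : 0 < B := by linarith
      have hBβ : 1 ≤ B ^ β := Real.one_le_rpow hB hβ0
      set R : Pool.Agent.Q237.LS.Prp := fun K _ _ j => BoundedTorsion κ (28 / θ ^ 2) j with hR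
      have hsub : ({j : K | absHeight j ≤ B ∧ ¬ BoundedTorsion κ (28 / θ ^ 2) j} : Set K) ⊆
          Pool.Agent.Q237.LS.ExcS R K B ∪ ({0, 1728} : Set K) := by
        rintro j ⟨hj1, hj2⟩
        by_cases h0 : j = 0
        · right; left; exact h0
        by_cases h1728 : j = 1728
        · right; right; exact h1728
        left
        exact ⟨⟨h0, h1728, (absHeight_le hB j).1 hj1⟩, hj2⟩
      have hfe : (Pool.Agent.Q237.LS.ExcS R K B).Finite :=
        (Pool.Agent.Q237.LS.fin_InvS B).subset fun x hx => hx.1
      have hc1 := Set.ncard_le_ncard hsub (hfe.union (Set.toFinite _))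
      have hc2 := Set.ncard_union_le (Pool.Agent.Q237.LS.ExcS R K B) ({0, 1728} : Set K)
      have hc3 : ({0, 1728} : Set K).ncard ≤ 2 := by
        have := Set.ncard_insert_le (0 : K) {1728}
        rw [Set.ncard_singleton] at this
        omega
      have hc4 : (({j : K | absHeight j ≤ B ∧ ¬ BoundedTorsion κ (28 / θ ^ 2) j} :
          Set K).ncard : ℝ) ≤ ((Pool.Agent.Q237.LS.ExcS R K B).ncard : ℝ) + 2 := by
        exact_mod_cast (by omega : _ ≤ (Pool.Agent.Q237.LS.ExcS R K B).ncard + 2)
      have h3 := h1 K B hB
      rw [← Pool.Agent.Q237.LS.pow_form2 hB0] at h3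
      refine hc4.trans ?_
      have h4 := pow_two_le (x := Real.exp A1 * B ^ β) (y := 2 * B ^ β) (by positivity)
        (by linarith) hn0
      have h5 : (Real.exp A1 * B ^ β + 2 * B ^ β) ^ Module.finrank ℚ K ≤
          ((Real.exp A1 + 2 + Real.exp A2) * B ^ β) ^ Module.finrank ℚ K := by
        apply pow_le_pow_left₀ (by positivity)
        have := Real.exp_pos A2
        nlinarith [mul_pos this (by linarith : 0 < B ^ β)]
      linarith
    · have hδ : 0 < rootDisc K := by
        have e : rootDisc K = Pool.Agent.Q237.LS.rDisc K := rfl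
        rw [e, Pool.Agent.Q237.LS.rDisc_eq]
        exact Real.exp_pos _
      have e0 : rootDisc K = Pool.Agent.Q237.LS.rDisc K := rfl
      have hrd := Pool.Agent.Y733.UD.rd_nonneg K
      have hB1 : 1 ≤ B := by
        refine le_trans ?_ hB
        rw [e0, Pool.Agent.Q237.LS.sqrt_rDisc]
        have := Real.one_le_exp (show 0 ≤ Pool.Agent.Y733.UD.rd K / 2 by linarith)
        linarith
      have hB0 : 0 < B := by linarith
      have h3 := h2 K B hB
      have hsub : (Pool.Agent.Q237.LS.InvS K B) ⊆ ({j : K | absHeight j ≤ B} : Set K) := by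
        intro j hj
        exact (absHeight_le hB1 j).2 hj.2.2
      have h4 : ((Pool.Agent.Q237.LS.InvS K B).ncard : ℝ) ≤
          (({j : K | absHeight j ≤ B} : Set K).ncard : ℝ) := by
        exact_mod_cast Set.ncard_le_ncard hsub (hfin B hB1)
      refine le_trans ?_ (h3.trans h4)
      have h5 : B ^ (2 - ε) / ((Real.exp A1 + 2 + Real.exp A2) * rootDisc K ^ (2 + ε)) ≤
          Real.exp ((2 - ε) * Real.log B - (2 + ε) * Pool.Agent.Y733.UD.rd K - A2) := by
        rw [div_le_iff₀ (by positivity)]
        have e1 : rootDisc K ^ (2 + ε) = Real.exp ((2 + ε) * Pool.Agent.Y733.UD.rd K) := by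
          rw [e0, Pool.Agent.Q237.LS.rDisc_eq, ← Real.exp_mul, mul_comm]
        have e2 : B ^ (2 - ε) = Real.exp ((2 - ε) * Real.log B) := by
          rw [Real.rpow_def_of_pos hB0, mul_comm]
        have e3 : Real.exp ((2 - ε) * Real.log B) =
            Real.exp ((2 - ε) * Real.log B - (2 + ε) * Pool.Agent.Y733.UD.rd K - A2) *
              (Real.exp A2 * Real.exp ((2 + ε) * Pool.Agent.Y733.UD.rd K)) := by
          rw [← Real.exp_add, ← Real.exp_add]
          congr 1
          ring
        rw [e1, e2]
        refine le_trans (le_of_eq e3) ?_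
        apply mul_le_mul_of_nonneg_left _ (Real.exp_pos _).le
        apply mul_le_mul_of_nonneg_right _ (Real.exp_pos _).le
        have := Real.exp_pos A1
        linarith
      calc _ ≤ (Real.exp ((2 - ε) * Real.log B - (2 + ε) * Pool.Agent.Y733.UD.rd K - A2)) ^
            Module.finrank ℚ K := pow_le_pow_left₀ (by positivity) h5 _
        _ = _ := by rw [← Real.exp_nat_mul]
  · intro K _ _ L _ _ _ g j a b h P hP
    have h1 : ∀ i, IsOfFinAddOrder (P i) := by
      intro i
      obtain ⟨m, hm, hmP⟩ := isOfFinAddOrder_iff_nsmul_eq_zero.1 hP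
      refine isOfFinAddOrder_iff_nsmul_eq_zero.2 ⟨m, hm, ?_⟩
      exact congrFun hmP i
    have h2 : ∀ i, (addOrderOf (P i) : ℝ) ≤ 28 / θ ^ 2 := by
      intro i
      obtain ⟨h3, h4, h5, h6⟩ := h i
      exact h3 L h4 (a i) (b i) h5 h6 (P i) (h1 i)
    refine ⟨h2, ?_⟩
    rw [addOrderOf_dvd_iff_nsmul_eq_zero]
    funext i
    show (Finset.Icc 1 ⌊28 / θ ^ 2⌋₊).lcm id • P i = 0
    rw [← addOrderOf_dvd_iff_nsmul_eq_zero]
    have h3 : addOrderOf (P i) ∈ Finset.Icc 1 ⌊28 / θ ^ 2⌋₊ := by
      rw [Finset.mem_Icc]
      exact ⟨(h1 i).addOrderOf_pos, Nat.le_floor (h2 i)⟩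
    exact Finset.dvd_lcm h3

end Pool.Agent.Results.MP_160b6c_nt.SmallRootDiscriminant
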