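import Pool.Agent.U536.CF.RatN
import Pool.Agent.Results.MP_160b6c_nt.SmallRootDiscriminant

/-!
# An absolute bound for the torsion over all number fields of small root discriminant, for the invariants near quotients of
# multiples of integers with large common factors with the values of multiplicative functions

Let `F_0`, `F_1` be positive multiplicative functions of at most polynomial growth with `F_i(p) ≤ M p` for the large
primes `p`, with different values at different large primes; for example Euler's function or the sum of the divisors.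
Let `0 < θ ≤ 1` and `κ ≥ 0` with `θ + κ < 5 / 4`.  There are `η > 0` and `ρ < 1` such that for all such `F_i`, all `b <
1` and `0 ≤ c < 2 b - 1` and all large `N`, the following holds for all but `N ^ 2 exp (-(log N)^c)` of the pairs `(m_0,
m_1)` of positive integers `≤ N`. For EVERY pair `w` of integers `w_i ≥ exp ((log N)^b)` such that `gcd(w_i, F_i(m_i)) ≥
w_j^ρ` for all `i`, `j`, and for ALL integers `u_i ≠ 0` and `v_i` which are bounded in absolute value by `w_l ^ η` for
some `l`, the following holds for the integers `α_i = u_i w_i + v_i`, `α_1 ≠ 0`, and the rational number `j = α_0 / α_1`: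
for ALL number fields `L`, of ANY degree, of root discriminant at most `H(j) ^ κ` and ALL elliptic curves `E` over `L` of
invariant `j` (all twists), the torsion points of `E(L)` have order at most `28 / θ ^ 2`; and the torsion points over `L`
of ALL products of such curves, of any dimension and with different invariants, have components of order at most `28 / θ ^
2` and an order which divides the least common multiple of the numbers up to `28 / θ ^ 2`.

Proof. The exceptional invariants in `ℚ` of height at most `B` number at most `C B ^ s`, `s = 1/3 + 4/3 (θ + κ) + ε < 2`,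
by `SmallRootDiscriminant`; `common_rat` of `U536.CF` shows that such a set of rational numbers contains the
quotient of a pair `α` for few pairs `m` only.
-/

set_option autoImplicit false

namespace Pool.Agent.Results.MP_160b6c_nt.CommonFactors

open NumberField
open Pool.Agent.N733.TG (LM lm_totient lm_sigma)
open Pool.Agent.U536.CF (CommonT common_rat commonT_of_dvd)
open Pool.Agent.Results.MP_160b6c_nt.SmallRootDiscriminant (Points jInvariant rootDisc absHeight BoundedTorsion
  absHeight_le)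

theorem rootDisc_rat : rootDisc ℚ = 1 := by
  unfold rootDisc
  rw [Rat.numberField_discr]
  simp

open scoped Classical in
/-- **Theorem.** Let `0 < θ ≤ 1`, `κ ≥ 0`, `θ + κ < 5 / 4`. (1) There are `η > 0` and `ρ < 1` such that for all `F_0`,
`F_1` which are LM, all `b < 1` and `0 ≤ c < 2 b - 1` there is `N₀` such that for all `N ≥ N₀`: for all but at most `N ^ 2
exp (-(log N)^c)` of the pairs `m` of positive integers `≤ N`, for EVERY pair `w` of integers `w_i ≥ exp ((log N)^b)` with
`gcd(w_i, F_i(m_i)) ≥ w_j^ρ` for all `i`, `j`, and for all integers `u_i ≠ 0`, `v_i` with `|u_i|, |v_i| ≤ w_l ^ η` (for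
some `l` which does not depend on `i`) and `α_i = u_i w_i + v_i`, `α_1 ≠ 0`, the rational number `j = α_0 / α_1` satisfies
`BoundedTorsion κ (28 / θ ^ 2) j`: the torsion points of all elliptic curves of invariant `j` over all number fields of
root discriminant at most `H(j) ^ κ` have order at most `28 / θ ^ 2`.  (2) Euler's function and the sum of the divisors are
LM. Pairs of divisors `w_i ≥ exp ((log N)^b)` of `F_i(m_i)` with `w_j^ρ ≤ w_i` are such pairs `w`.  (3) For products, of
any dimension, of curves over `L` whose invariants are rational numbers `j_i` as in (1), where the root discriminant of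
`L` is at most `H(j_i) ^ κ` for all `i`, the orders of the components of a torsion point over `L` are at most `28 / θ ^ 2`,
and its order divides the least common multiple of the numbers up to `28 / θ ^ 2`. -/
theorem result (θ κ : ℝ) (hθ : 0 < θ) (hθ1 : θ ≤ 1) (hκ : 0 ≤ κ) (hθκ : θ + κ < 5 / 4) :
    (∃ η ρ : ℝ, 0 < η ∧ 0 < ρ ∧ ρ < 1 ∧
      ∀ F : Fin 2 → ℕ → ℕ, (∀ i, LM (F i)) → ∀ b c : ℝ, b < 1 → 0 ≤ c → c < 2 * b - 1 →
      ∃ N₀ : ℕ, ∀ N : ℕ, N₀ ≤ N →
      ({m : Fin 2 → ℕ | (∀ i, 1 ≤ m i ∧ m i ≤ N) ∧ ¬ ∀ w : Fin 2 → ℕ, CommonT F b ρ N m w →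
        ∀ u v α : Fin 2 → ℤ, (∃ l, ∀ i, u i ≠ 0 ∧ |(u i : ℝ)| ≤ (w l : ℝ) ^ η ∧ |(v i : ℝ)| ≤ (w l : ℝ) ^ η) →
        (∀ i, α i = u i * (w i : ℤ) + v i) → α 1 ≠ 0 →
        BoundedTorsion κ (28 / θ ^ 2) ((α 0 : ℚ) / (α 1 : ℚ))}.ncard : ℝ) ≤
        (N : ℝ) ^ 2 * Real.exp (-(Real.log N ^ c))) ∧
    ((LM Nat.totient ∧ LM (fun m => ∑ d ∈ m.divisors, d)) ∧
    ∀ (F : Fin 2 → ℕ → ℕ) (b ρ : ℝ) (N : ℕ) (m w : Fin 2 → ℕ), (∀ i, Real.exp (Real.log N ^ b) ≤ (w i : ℝ)) →
      (∀ i, w i ∣ F i (m i)) → (∀ i j, (w j : ℝ) ^ ρ ≤ (w i : ℝ)) → CommonT F b ρ N m w) ∧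
    ∀ (g : ℕ) (j : Fin g → ℚ), (∀ i, BoundedTorsion κ (28 / θ ^ 2) (j i)) →
      ∀ (L : Type) [Field L] [NumberField L], (∀ i, rootDisc L ≤ absHeight (j i) ^ κ) →
      ∀ a b : Fin g → L, (∀ i, 4 * a i ^ 3 + 27 * b i ^ 2 ≠ 0 ∧ jInvariant (a i) (b i) = (j i : L)) →
      ∀ P : ∀ i, Points (a i) (b i), IsOfFinAddOrder P →
        (∀ i, (addOrderOf (P i) : ℝ) ≤ 28 / θ ^ 2) ∧
        addOrderOf P ∣ (Finset.Icc 1 ⌊28 / θ ^ 2⌋₊).lcm id := by
  have h := SmallRootDiscriminant.result θ κ (2 / 3 * (5 / 4 - (θ + κ))) hθ hθ1 hκ (by linarith)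
  refine ⟨?_, ⟨⟨lm_totient, lm_sigma⟩, fun F b ρ N m w h1 h2 h3 => commonT_of_dvd h1 h2 h3⟩, ?_⟩
  · obtain ⟨M, hM, hcount⟩ := h.1
    obtain ⟨s, hs⟩ : ∃ s : ℝ, s = 1 / 3 + 4 / 3 * (θ + κ) + 2 / 3 * (5 / 4 - (θ + κ)) := ⟨_, rfl⟩
    rw [← hs] at hcount
    obtain ⟨η, ρ, hη, hρ0, hρ1, hk⟩ := common_rat (s := s) (by rw [hs]; linarith) (by rw [hs]; linarith)
    refine ⟨η, ρ, hη, hρ0, hρ1, fun F hF b c hb hc hcb => ?_⟩
    have hcnt : ∀ B : ℝ, 1 ≤ B → {q : ℚ | q ∈ {j : ℚ | ¬ BoundedTorsion κ (28 / θ ^ 2) j} ∧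
        Height.logHeight₁ q ≤ Real.log B}.Finite ∧
        ({q : ℚ | q ∈ {j : ℚ | ¬ BoundedTorsion κ (28 / θ ^ 2) j} ∧
        Height.logHeight₁ q ≤ Real.log B}.ncard : ℝ) ≤ M * B ^ s := by
      intro B hB
      obtain ⟨h1, h2⟩ := (hcount ℚ).1 B hB
      have e : {q : ℚ | q ∈ {j : ℚ | ¬ BoundedTorsion κ (28 / θ ^ 2) j} ∧
          Height.logHeight₁ q ≤ Real.log B} =
          {j : ℚ | absHeight j ≤ B ∧ ¬ BoundedTorsion κ (28 / θ ^ 2) j} := by
        ext q
        have h3 := absHeight_le hB q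
        rw [Module.finrank_self, Nat.cast_one, one_mul] at h3
        simp only [Set.mem_ofPred_eq, h3]
        tauto
      rw [e]
      refine ⟨h1.subset fun x hx => hx.1, ?_⟩
      rw [Module.finrank_self, pow_one] at h2
      exact h2
    obtain ⟨N₀, hN₀⟩ := hk M _ hcnt F hF b c hb hc hcb
    refine ⟨N₀, fun N hN => le_trans (le_of_eq ?_) (hN₀ N hN)⟩
    simp only [Set.mem_ofPred_eq, not_not]
  · intro g j hj L _ _ hL a b hab P hP
    refine h.2 ℚ L g j a b (fun i => ⟨hj i, ?_, (hab i).1, ?_⟩) P hP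
    · rw [rootDisc_rat, one_mul]
      exact hL i
    · rw [(hab i).2]
      simp

end Pool.Agent.Results.MP_160b6c_nt.CommonFactors
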