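import Pool.Agent.Q237.LT.Tot
import Pool.Agent.N365.FH.D
import Pool.Agent.U265.GM.Two

/-!
# Torsion over ALL number fields of small root discriminant in one-parameter families of elliptic curves

Let `J = A / D` be a non-constant rational function over `ℚ`, of degree `d`, for example the invariant of an elliptic curve over
`ℚ(T)`, `ε > 0` and `θ = min (ε, 1) / (16 (d + 1))`. We call `t` good for the level `ε` if `J(t)` is finite and the torsion points
over ALL number fields `L`, of any degree, of root discriminant at most `H(J(t)) ^ θ` of ALL elliptic curves over `L` of invariant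
`J(t)` have order at most the absolute constant `28 / θ ^ 2`. (The bounds of Merel, Oesterlé and Parent depend on the degree of
`L`.)

(1) Among the about `B ^ 2` rational numbers `t` of height at most `B` all but `O(B ^ (1 + ε))`, all but `O(B ^ ε)` if `J` has at
least two poles on the projective line, and among the integers `|t| ≤ B` all but `O(B ^ ε)` if `D` is not constant, are good. (The
theorem SmallRootDiscriminant of this problem is about all invariants, `t = J(t)`, with `O(B ^ (1 / 3 + 8 θ / 3 + ε))` exceptions of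
height at most `B`.)

(2) Let `w_m ≥ 1` be a sequence for which the sums of the `w_m ^ (-t)` converge for all `t > τ` (`τ = 1 / c` for `w_m = m ^ c`,
`τ = 0` for `w_m = 2 ^ m`), `κ < 1` and let `J` have at least two poles. For all `v ∈ ℝ²` but a set of Hausdorff dimension at most
`(ε + τ) / (1 - κ)`: for all large `m` ALL `t = x / y`, `x`, `y ≠ 0` coprime, `|x - w_m v_1|, |y - w_m v_2| ≤ w_m ^ κ`, are good for the
level `ε`.

(3) Let the sums converge for all `t > 0`. For all `v ∈ ℝ²` but a set of Hausdorff dimension ZERO: for all `κ < 1` and ALL `J` with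
at least two poles there is ONE `θ > 0` for which, for all large `m`, ALL these `t` are good.

(4) The same for all real `a` but a set of dimension zero, all `κ < 1`, all `J` with `D` not constant (one pole is enough) and ALL
integers `x` with `|x - w_m a| ≤ w_m ^ κ`.

(5) If `w_m / log m → ∞`: for all real `α > 1` but a set of Hausdorff dimension zero, for all `ξ ≠ 0` in a given countable set, for
all `κ < 1` and all `J` with `D` not constant, there is ONE `θ > 0` such that, for all large `m`, ALL integers `x` with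
`|x - ξ α ^ (w_m)| ≤ α ^ (κ w_m)` are good.

Proof. Outside the exceptional set there are primes with product at least `B ^ (ε / 8)` at which `J(t)` has a pole (library
`N365.HY`, helper365), and the height of `J(t)` is `O(B ^ d)`. So the truncated counting function of the poles is at least `2 θ` times
the logarithmic height, and the local heights at these places bound the torsion over all extensions (energy argument, library
`Q237.LT`, helper237). The metric statements follow by covers (`Pool.Agent.U265.GM`); there are countably many functions `J`.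
-/

set_option autoImplicit false

namespace Pool.Agent.Results.MP_160b6c_nt.FamiliesNearMultiples

open NumberField Polynomial Filter

/-- The curve `y² = x³ + a x + b` over the field `L`. -/
def curve {L : Type} [Field L] (a b : L) : WeierstrassCurve L := ⟨0, 0, 0, a, b⟩

/-- The set `E(L)` of its points over `L`. -/
abbrev Points {L : Type} [Field L] (a b : L) : Type := (curve a b).toAffine.Point

/-- Its `j`-invariant. -/
def jInvariant {L : Type} [Field L] (a b : L) : L := 6912 * a ^ 3 / (4 * a ^ 3 + 27 * b ^ 2)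

/-- The root discriminant of the number field `L`. -/
noncomputable def rootDisc (L : Type) [Field L] [NumberField L] : ℝ :=
  |(NumberField.discr L : ℝ)| ^ (1 / (Module.finrank ℚ L : ℝ))

/-- The height of the rational number `j`, the maximum of `|numerator|` and the denominator. -/
def height (j : ℚ) : ℝ := max (j.num.natAbs : ℝ) (j.den : ℝ)

open scoped Classical in
/-- The torsion points of all elliptic curves of invariant `j` over all number fields `L` of root discriminant at most `H(j) ^ θ` have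
order at most `N`. -/
def BoundedTorsion (θ N : ℝ) (j : ℚ) : Prop :=
  ∀ (L : Type) [Field L] [NumberField L], rootDisc L ≤ height j ^ θ →
    ∀ a b : L, 4 * a ^ 3 + 27 * b ^ 2 ≠ 0 → jInvariant a b = (j : L) →
    ∀ P : Points a b, IsOfFinAddOrder P → (addOrderOf P : ℝ) ≤ N

/-- `A / D` is a rational function of degree `d ≥ 1` in lowest terms -/
structure IsFunction (d : ℕ) (A D : ℤ[X]) : Prop where
  pos : 1 ≤ d
  deg_num : A.natDegree ≤ d
  deg_den : D.natDegree ≤ d
  deg : A.natDegree = d ∨ D.natDegree = d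
  coprime : IsCoprime (A.map (Int.castRingHom ℚ)) (D.map (Int.castRingHom ℚ))

/-- the number of the different poles on the projective line over `ℂ` of the function `A / D` of
degree `d`: the roots of `D`, and infinity if `deg D < d` -/
noncomputable def poleCount (d : ℕ) (D : ℤ[X]) : ℕ :=
  (D.map (Int.castRingHom ℂ)).roots.toFinset.card + if D.natDegree < d then 1 else 0

/-- the value of the polynomial `f` at the rational number `t` -/
noncomputable def value (f : ℤ[X]) (t : ℚ) : ℚ := f.eval₂ (Int.castRingHom ℚ) t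

/-- `t` is not a pole of `J = A / D`, and the torsion points of all elliptic curves of invariant `J(t)` over all number fields `L`
of root discriminant at most `H(J(t)) ^ θ` have order at most `28 / θ ^ 2`. -/
def Good (θ : ℝ) (A D : ℤ[X]) (t : ℚ) : Prop :=
  value D t ≠ 0 ∧ BoundedTorsion θ (28 / θ ^ 2) (value A t / value D t)

/-- `min (ε, 1) / (16 (d + 1))` -/
noncomputable def theta (d : ℕ) (ε : ℝ) : ℝ := min ε 1 / (16 * (d + 1))

/-- For all large `m` ALL `t = x / y`, `x`, `y ≠ 0` coprime integers with `|x - W_m v_1|, |y - W_m v_2| ≤ W_m ^ κ`, are good. -/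
def NearVector (θ : ℝ) (A D : ℤ[X]) (κ : ℝ) (W : ℕ → ℝ) (v : Fin 2 → ℝ) : Prop :=
  ∀ᶠ m : ℕ in atTop, ∀ x y : ℤ, IsCoprime x y → y ≠ 0 → |(x : ℝ) - W m * v 0| ≤ W m ^ κ →
    |(y : ℝ) - W m * v 1| ≤ W m ^ κ → Good θ A D ((x : ℚ) / y)

/-- For all large `m` ALL integers `x` with `|x - X_m| ≤ W_m ^ κ` are good. -/
def NearNumber (θ : ℝ) (A D : ℤ[X]) (κ : ℝ) (W X : ℕ → ℝ) : Prop :=
  ∀ᶠ m : ℕ in atTop, ∀ x : ℤ, |(x : ℝ) - X m| ≤ W m ^ κ → Good θ A D (x : ℚ)

section Aux

open Pool.Agent.Q237.LS (UT rDisc)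
open Pool.Agent.Q237.LT (fa wa mem_wa c8 c8_pos fa_le_ht UTA_of)
open Pool.Agent.W223.AK (ht)
open Pool.Agent.N365.HY (Many)

lemma height_eq (j : ℚ) : height j = Height.mulHeight₁ j := by
  rw [Rat.mulHeight₁_eq_max]
  unfold height
  push_cast
  rfl

lemma height_pow (j : ℚ) (θ : ℝ) : height j ^ θ = Real.exp (θ * Height.logHeight₁ j) := by
  rw [height_eq, Real.rpow_def_of_pos (Height.mulHeight₁_pos j), Height.logHeight₁_eq_log_mulHeight₁, mul_comm]

lemma rDisc_rat : rDisc ℚ = 1 := by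
  show |(NumberField.discr ℚ : ℝ)| ^ (1 / (Module.finrank ℚ ℚ : ℝ)) = 1
  rw [Rat.numberField_discr]
  simp

open scoped Classical in
theorem good_of {θ c N : ℝ} {j : ℚ} (h : UT θ c N j) : BoundedTorsion θ N j := by
  intro L _ _ hL a b hD hj P hP
  have h1 : Real.log |(discr L : ℝ)| ≤ Module.finrank ℚ L * (Real.log |(discr ℚ : ℝ)| + θ * ht j) := by
    apply Pool.Agent.Q237.LS.rDisc_le
    rw [rDisc_rat, one_mul]
    rw [height_pow] at hL
    have e : rDisc L = rootDisc L := rfl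
    rw [e, Module.finrank_self, Nat.cast_one, div_one]
    exact hL
  have h2 : jInvariant a b = algebraMap ℚ L j := by
    rw [hj]
    simp
  exact (h L h1 a b hD h2).1 P hP

/-- the primes dividing the denominator contribute to the truncated counting function -/
theorem fa_ge {x y : ℤ} (hy : y ≠ 0) (F : Finset ℕ) (hF : ∀ p ∈ F, p.Prime ∧ (p : ℤ) ∣ y ∧ ¬ (p : ℤ) ∣ x) :
    Real.log ((∏ p ∈ F, p : ℕ) : ℝ) ≤ fa ((x : ℚ) / y) := by
  classical
  have hex : ∀ p : ℕ, ∃ v : IsDedekindDomain.HeightOneSpectrum (𝓞 ℚ), p.Prime → (p : 𝓞 ℚ) ∈ v.asIdeal := by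
    intro p
    by_cases hp : p.Prime
    · obtain ⟨v, hv⟩ := Pool.Agent.N365.FH.exists_above ℚ hp
      exact ⟨v, fun _ => hv⟩
    · obtain ⟨v, -⟩ := Pool.Agent.N365.FH.exists_above ℚ Nat.prime_two
      exact ⟨v, fun h => absurd h hp⟩
  choose v hv using hex
  have hinj : Set.InjOn v (F : Set ℕ) := by
    intro p hp q hq hpq
    by_contra hne
    have hp1 := (hF p hp).1
    have hq1 := (hF q hq).1
    have h1 : ¬ (p : ℤ) ∣ (q : ℤ) := by
      intro hd
      have h2 : p ∣ q := by exact_mod_cast hd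
      exact hne ((Nat.prime_dvd_prime_iff_eq hp1 hq1).1 h2)
    have h3 := Pool.Agent.N365.FH.not_mem_of hp1 (hv p hp1) h1
    rw [hpq] at h3
    exact h3 (by exact_mod_cast hv q hq1)
  have hsub : F.image v ⊆ wa ((x : ℚ) / y) := by
    intro u hu
    obtain ⟨p, hp, rfl⟩ := Finset.mem_image.1 hu
    obtain ⟨hp1, hpy, hpx⟩ := hF p hp
    rw [mem_wa]
    by_contra hcon
    push Not at hcon
    rw [Pool.Agent.Y733.FF.fv_le_one_iff, map_div₀, Pool.Agent.N365.FH.val_int hp1 (hv p hp1) hpx] at hcon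
    have h2 := Pool.Agent.N365.FH.val_lt (hv p hp1) hpy
    have h3 : (v p).valuation ℚ (y : ℚ) ≠ 0 := ((v p).valuation ℚ).ne_zero_iff.2 (by exact_mod_cast hy)
    have h4 : (1 : WithZero (Multiplicative ℤ)) ≤ (v p).valuation ℚ (y : ℚ) := by
      rw [div_le_iff₀ (zero_lt_iff.2 h3), one_mul] at hcon
      exact hcon
    exact absurd h2 (not_lt.2 h4)
  have h1 : Real.log ((∏ p ∈ F, p : ℕ) : ℝ) = ∑ p ∈ F, Real.log (p : ℝ) := by
    push_cast
    exact Real.log_prod fun p hp => by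
      have := (hF p hp).1.pos
      positivity
  rw [h1]
  calc ∑ p ∈ F, Real.log (p : ℝ) ≤ ∑ p ∈ F, Real.log (Pool.Agent.H691R3.Nv (v p)) := by
        refine Finset.sum_le_sum fun p hp => ?_
        have hp1 := (hF p hp).1
        exact Real.log_le_log (by exact_mod_cast hp1.pos) (Pool.Agent.N365.FH.le_norm hp1 (hv p hp1))
    _ = ∑ u ∈ F.image v, Real.log (Pool.Agent.H691R3.Nv u) := by
        rw [Finset.sum_image hinj]
    _ ≤ fa ((x : ℚ) / y) := by
        unfold Pool.Agent.Q237.LT.fa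
        refine Finset.sum_le_sum_of_subset_of_nonneg hsub fun u _ _ => ?_
        exact (Pool.Agent.H691R3.log_Nv_pos u).le

lemma ht_le {x y : ℤ} (hy : y ≠ 0) {B M : ℕ} (hx1 : |(x : ℝ)| ≤ (B : ℝ) ^ M) (hy1 : |(y : ℝ)| ≤ (B : ℝ) ^ M) :
    ht ((x : ℚ) / y) ≤ M * Real.log B := by
  have hxB : |x| ≤ ((B ^ M : ℕ) : ℤ) := by
    have : |(x : ℝ)| ≤ ((B ^ M : ℕ) : ℝ) := by
      push_cast
      exact hx1
    exact_mod_cast this
  have hyB : |y| ≤ ((B ^ M : ℕ) : ℤ) := by
    have : |(y : ℝ)| ≤ ((B ^ M : ℕ) : ℝ) := by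
      push_cast
      exact hy1
    exact_mod_cast this
  obtain ⟨h1, h2⟩ := Pool.Agent.U265.GM.num_den_le hy hxB hyB
  have h3 : ((x : ℚ) / y).num.natAbs ≤ B ^ M := by
    rw [Int.abs_eq_natAbs] at h1
    exact_mod_cast h1
  rw [← Pool.Agent.Q237.LS.ht_log, Height.logHeight₁_eq_log_mulHeight₁, Rat.mulHeight₁_eq_max, ← Real.log_pow]
  have h4 : ((max ((x : ℚ) / y).num.natAbs ((x : ℚ) / y).den : ℕ) : ℝ) ≤ (B : ℝ) ^ M := by
    exact_mod_cast max_le h3 h2
  have h5 : 0 < ((max ((x : ℚ) / y).num.natAbs ((x : ℚ) / y).den : ℕ) : ℝ) := by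
    have := ((x : ℚ) / y).den_pos
    have h6 : 0 < max ((x : ℚ) / y).num.natAbs ((x : ℚ) / y).den := lt_of_lt_of_le this (le_max_right _ _)
    exact_mod_cast h6
  exact Real.log_le_log h5 h4

theorem follows (d : ℕ) {ε : ℝ} (hε : 0 < ε) (hε1 : ε ≤ 1) :
    Pool.Agent.N365.FH.Follows (ε / 8) (d + 1)
      (fun _ j => BoundedTorsion (ε / (16 * (d + 1))) (28 / (ε / (16 * (d + 1))) ^ 2) j) := by
  set θ := ε / (16 * ((d : ℝ) + 1)) with hθ
  have hd0 : (0 : ℝ) < d + 1 := by positivity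
  have hθ0 : 0 < θ := by positivity
  have hθ1 : θ ≤ 1 := by
    rw [hθ, div_le_one (by positivity)]
    nlinarith [(Nat.cast_nonneg d : (0 : ℝ) ≤ d)]
  obtain ⟨B₀, hB₀⟩ : ∃ B₀ : ℕ, ∀ B : ℕ, B₀ ≤ B → 144 * c8 / θ ^ 2 + 1 ≤ ε / 8 * Real.log B := by
    have h1 : Tendsto (fun B : ℕ => ε / 8 * Real.log B) atTop atTop :=
      (Real.tendsto_log_atTop.comp tendsto_natCast_atTop_atTop).const_mul_atTop (by positivity)
    obtain ⟨B₀, h2⟩ := eventually_atTop.1 (h1.eventually_ge_atTop (144 * c8 / θ ^ 2 + 1))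
    exact ⟨B₀, h2⟩
  refine ⟨B₀, fun B hB hB1 x y hM hx hy => ?_⟩
  obtain ⟨hy0, F, hF, hprod⟩ := hM
  have hB1' : (1 : ℝ) ≤ B := by exact_mod_cast hB1
  have hlogB : 0 ≤ Real.log B := Real.log_nonneg hB1'
  have h1 : ε / 8 * Real.log B ≤ fa ((x : ℚ) / y) := by
    refine le_trans ?_ (fa_ge hy0 F hF)
    rw [← Real.log_rpow (by linarith)]
    exact Real.log_le_log (Real.rpow_pos_of_pos (by linarith) _) hprod
  have hbig := hB₀ B hB
  have hc8 := c8_pos
  have hpos : 0 < 144 * c8 / θ ^ 2 := by positivity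
  have hfa1 : 1 ≤ fa ((x : ℚ) / y) := by linarith
  have h2 : ht ((x : ℚ) / y) ≤ (d + 1 : ℕ) * Real.log B := ht_le hy0 hx hy
  have h3 : fa ((x : ℚ) / y) ≤ ht ((x : ℚ) / y) := fa_le_ht _
  have hFne : F.Nonempty := by
    rcases F.eq_empty_or_nonempty with rfl | h
    · exfalso
      rw [Finset.prod_empty, Nat.cast_one] at hprod
      have h4 : 1 < (B : ℝ) ^ (ε / 8) := by
        rw [Real.rpow_def_of_pos (by linarith), Real.one_lt_exp_iff]
        linarith
      linarith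
    · exact h
  obtain ⟨p, hp⟩ := hFne
  obtain ⟨hp1, hpy, hpx⟩ := hF p hp
  have hyQ : (y : ℚ) ≠ 0 := by exact_mod_cast hy0
  have hj0 : ((x : ℚ) / y) ≠ 0 := by
    intro h
    rw [div_eq_zero_iff] at h
    rcases h with h | h
    · have h4 : x = 0 := by exact_mod_cast h
      exact hpx (by rw [h4]; exact dvd_zero _)
    · exact hyQ h
  have hj1 : ((x : ℚ) / y) ≠ 1728 := by
    intro h
    rw [div_eq_iff hyQ] at h
    have h4 : x = 1728 * y := by exact_mod_cast h
    exact hpx (by rw [h4]; exact dvd_mul_of_dvd_right hpy _)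
  refine good_of (UTA_of hj0 hj1 hθ0 hθ1 ?_ ?_)
  · calc (θ + θ) * ht ((x : ℚ) / y) ≤ (θ + θ) * ((d + 1 : ℕ) * Real.log B) :=
        mul_le_mul_of_nonneg_left h2 (by linarith)
      _ = ε / 8 * Real.log B := by
        rw [hθ]
        push_cast
        field_simp
        ring
      _ ≤ fa ((x : ℚ) / y) := h1
  · rw [Module.finrank_self, Nat.cast_one, one_mul]
    linarith

end Aux

/-- at most `C B ^ e` rational numbers of height at most `B` are not good -/
def FewRat (θ : ℝ) (A D : ℤ[X]) (e : ℝ) : Prop :=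
  ∃ C : ℝ, ∀ B : ℕ, 1 ≤ B → ({t : ℚ | |t.num| ≤ B ∧ t.den ≤ B ∧ ¬ Good θ A D t}.ncard : ℝ) ≤ C * (B : ℝ) ^ e

/-- at most `C B ^ e` integers up to `B` are not good -/
def FewInt (θ : ℝ) (A D : ℤ[X]) (e : ℝ) : Prop :=
  ∃ C : ℝ, ∀ B : ℕ, 1 ≤ B → ({t : ℤ | |t| ≤ B ∧ ¬ Good θ A D (t : ℚ)}.ncard : ℝ) ≤ C * (B : ℝ) ^ e

lemma pow_up {C e e' : ℝ} (h : e ≤ e') {B : ℕ} (hB : 1 ≤ B) : C * (B : ℝ) ^ e ≤ max C 0 * (B : ℝ) ^ e' := by
  have hB1 : (1 : ℝ) ≤ B := by exact_mod_cast hB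
  exact mul_le_mul (le_max_left _ _) (Real.rpow_le_rpow_of_exponent_le hB1 h) (Real.rpow_nonneg (by linarith) _)
    (le_max_right _ _)

theorem count_rat {d : ℕ} {A D : ℤ[X]} (h : IsFunction d A D) {ε : ℝ} (hε : 0 < ε) :
    FewRat (theta d ε) A D (1 + ε) ∧ (2 ≤ poleCount d D → FewRat (theta d ε) A D ε) := by
  have hR : Pool.Agent.N365.LS.Rat d A D := ⟨h.pos, h.deg_num, h.deg_den, h.deg, h.coprime⟩
  have hpole : poleCount d D = Pool.Agent.N365.LS.poleCount d D := rfl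
  have hm : 0 < min ε 1 := lt_min hε one_pos
  have hme := min_le_left ε 1
  obtain ⟨C, hC⟩ := Pool.Agent.N365.FH.few_rat hR hm (follows d hm (min_le_right _ _))
  refine ⟨⟨max C 0, fun B hB => (hC B hB).trans (pow_up ?_ hB)⟩, fun h2 => ⟨max C 0, fun B hB => ?_⟩⟩
  · split_ifs <;> linarith
  · have h3 := hC B hB
    rw [if_pos (by rw [← hpole]; exact h2)] at h3
    exact h3.trans (pow_up hme hB)

theorem count_int {d : ℕ} {A D : ℤ[X]} (h : IsFunction d A D) (hD : 1 ≤ D.natDegree) {ε : ℝ} (hε : 0 < ε) :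
    FewInt (theta d ε) A D ε := by
  have hR : Pool.Agent.N365.LS.Rat d A D := ⟨h.pos, h.deg_num, h.deg_den, h.deg, h.coprime⟩
  have hm : 0 < min ε 1 := lt_min hε one_pos
  obtain ⟨C, hC⟩ := Pool.Agent.N365.FH.few_int hR hD hm (follows d hm (min_le_right _ _))
  exact ⟨max C 0, fun B hB => (hC B hB).trans (pow_up (min_le_left ε 1) hB)⟩

/-- the functions with two poles -/
abbrev Two : Type := {p : ℕ × ℤ[X] × ℤ[X] // IsFunction p.1 p.2.1 p.2.2 ∧ 2 ≤ poleCount p.1 p.2.2}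

/-- the functions with a nonconstant denominator -/
abbrev Den : Type := {p : ℕ × ℤ[X] × ℤ[X] // IsFunction p.1 p.2.1 p.2.2 ∧ 1 ≤ p.2.2.natDegree}

lemma few_rat (p : Two) (ε : ℝ) (hε : 0 < ε) :
    Pool.Agent.U265.GM.FewRat {t : ℚ | Good (theta p.1.1 ε) p.1.2.1 p.1.2.2 t}ᶜ ε :=
  (count_rat p.2.1 hε).2 p.2.2

lemma few_int (p : Den) (ε : ℝ) (hε : 0 < ε) :
    Pool.Agent.U265.GM.FewInt {t : ℤ | Good (theta p.1.1 ε) p.1.2.1 p.1.2.2 t}ᶜ ε :=
  count_int p.2.1 p.2.2 hε

lemma theta_pos (d : ℕ) {ε : ℝ} (hε : 0 < ε) : 0 < theta d ε := by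
  have hm : 0 < min ε 1 := lt_min hε one_pos
  unfold theta
  positivity

theorem result :
    (∀ (d : ℕ) (A D : ℤ[X]), IsFunction d A D → ∀ ε : ℝ, 0 < ε →
      FewRat (theta d ε) A D (1 + ε) ∧ (2 ≤ poleCount d D → FewRat (theta d ε) A D ε) ∧
        (1 ≤ D.natDegree → FewInt (theta d ε) A D ε)) ∧
    (∀ (d : ℕ) (A D : ℤ[X]), IsFunction d A D → 2 ≤ poleCount d D → ∀ ε κ τ : ℝ, 0 < ε → κ < 1 → 0 ≤ τ →
      ∀ w : ℕ → ℝ, (∀ m, 1 ≤ w m) → (∀ t : ℝ, τ < t → Summable fun m => w m ^ (-t)) →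
        dimH {v : Fin 2 → ℝ | ¬ NearVector (theta d ε) A D κ w v} ≤ ENNReal.ofReal ((ε + τ) / (1 - κ))) ∧
    (∀ w : ℕ → ℝ, (∀ m, 1 ≤ w m) → (∀ t : ℝ, 0 < t → Summable fun m => w m ^ (-t)) →
      dimH {v : Fin 2 → ℝ | ¬ ∀ κ : ℝ, κ < 1 → ∀ (d : ℕ) (A D : ℤ[X]), IsFunction d A D → 2 ≤ poleCount d D →
        ∃ θ : ℝ, 0 < θ ∧ NearVector θ A D κ w v} = 0) ∧
    (∀ w : ℕ → ℝ, (∀ m, 1 ≤ w m) → (∀ t : ℝ, 0 < t → Summable fun m => w m ^ (-t)) →
      dimH {a : ℝ | ¬ ∀ κ : ℝ, κ < 1 → ∀ (d : ℕ) (A D : ℤ[X]), IsFunction d A D → 1 ≤ D.natDegree →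
        ∃ θ : ℝ, 0 < θ ∧ NearNumber θ A D κ w (fun m => w m * a)} = 0) ∧
    (∀ (Ξ : Set ℝ) (w : ℕ → ℝ), Ξ.Countable → (∀ ξ ∈ Ξ, ξ ≠ 0) → (∀ m, 1 ≤ w m) →
      Tendsto (fun m : ℕ => w m / Real.log m) atTop atTop →
      dimH {α : ℝ | 1 < α ∧ ¬ ∀ ξ ∈ Ξ, ∀ κ : ℝ, κ < 1 → ∀ (d : ℕ) (A D : ℤ[X]), IsFunction d A D → 1 ≤ D.natDegree →
        ∃ θ : ℝ, 0 < θ ∧ NearNumber θ A D κ (fun m => α ^ w m) (fun m => ξ * α ^ w m)} = 0) := by
  have hc := Pool.Agent.U265.GM.countable_poly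
  refine ⟨fun d A D h ε hε => ⟨(count_rat h hε).1, (count_rat h hε).2, fun hD => count_int h hD hε⟩,
    fun d A D h1 h2 ε κ τ hε hκ hτ w hw hs => ?_, fun w hw hs => ?_, fun w hw hs => ?_, fun Ξ w hΞ hΞ0 hw hl => ?_⟩
  · refine le_trans (dimH_mono ?_) (Pool.Agent.U265.GM.near_dil hε.le (few_rat ⟨(d, A, D), h1, h2⟩ ε hε) hκ hτ w hw hs)
    intro v hv h
    exact hv h
  · refine le_antisymm ?_ bot_le
    refine le_trans (dimH_mono ?_) (Pool.Agent.U265.GM.near_zero
      (fun (p : Two) ε => {t : ℚ | Good (theta p.1.1 ε) p.1.2.1 p.1.2.2 t}) few_rat w hw hs).le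
    intro v hv h
    refine hv fun κ hκ d A D h1 h2 => ?_
    obtain ⟨ε, hε, h3⟩ := h κ hκ ⟨(d, A, D), h1, h2⟩
    exact ⟨theta d ε, theta_pos d hε, h3⟩
  · refine le_antisymm ?_ bot_le
    refine le_trans (dimH_mono ?_) (Pool.Agent.U265.GM.near_int_zero
      (fun (p : Den) ε => {t : ℤ | Good (theta p.1.1 ε) p.1.2.1 p.1.2.2 t}) few_int w hw hs).le
    intro a hv h
    refine hv fun κ hκ d A D h1 h2 => ?_
    obtain ⟨ε, hε, h3⟩ := h κ hκ ⟨(d, A, D), h1, h2⟩
    exact ⟨theta d ε, theta_pos d hε, h3⟩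
  · refine le_antisymm ?_ bot_le
    refine le_trans (dimH_mono ?_) (Pool.Agent.U265.GM.near_pow
      (fun (p : Den) ε => {t : ℤ | Good (theta p.1.1 ε) p.1.2.1 p.1.2.2 t}) few_int Ξ hΞ hΞ0 w hw hl).le
    rintro α ⟨hα, hv⟩
    refine ⟨hα, fun h => hv fun ξ hξ κ hκ d A D h1 h2 => ?_⟩
    obtain ⟨ε, hε, h3⟩ := h ξ hξ κ hκ ⟨(d, A, D), h1, h2⟩
    exact ⟨theta d ε, theta_pos d hε, h3⟩

end Pool.Agent.Results.MP_160b6c_nt.FamiliesNearMultiples
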